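import Mathlib
import Pool.Agent.Helper10.SC.Main

/-!
The half-range supercongruence for `(205 k^2 + 160 k + 32) (-1)^k C(2k,k)^5` modulo `p^6`.
-/

namespace Pool.Agent.Results.MP_995bae_nt.HalfRange

/-- `a ≡ b (mod p^m)` for rationals: the denominator of `(a - b) / p^m` is coprime to `p`. -/
def CongrModPow (p m : ℕ) (a b : ℚ) : Prop :=
  Nat.Coprime ((a - b) / (p : ℚ) ^ m).den p

/-- `S(p) = ∑_{k=0}^{(p-1)/2} (205 k^2 + 160 k + 32) (-1)^k C(2k,k)^5`. -/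
def S (p : ℕ) : ℚ :=
  ∑ k ∈ Finset.range ((p - 1) / 2 + 1),
    (205 * (k : ℚ) ^ 2 + 160 * k + 32) * (-1) ^ k * ((2 * k).choose k : ℚ) ^ 5

/-- For every prime `p > 3`, `S(p) ≡ 32 p^2 + (896/3) p^5 B_{p-3} (mod p^6)`. -/
theorem result (p : ℕ) (hp : p.Prime) (h3 : 3 < p) :
    CongrModPow p 6 (S p) (32 * (p : ℚ) ^ 2 + 896 / 3 * (p : ℚ) ^ 5 * bernoulli (p - 3)) := by
  haveI : Fact p.Prime := ⟨hp⟩
  have hodd : p % 2 = 1 := by
    rcases hp.eq_two_or_odd with h | h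
    · omega
    · exact h
  have hpN : p = 2 * ((p - 1) / 2) + 1 := by omega
  have hN : 2 ≤ (p - 1) / 2 := by omega
  have h := Pool.Agent.Helper10.SC.main_congr (p := p) (N := (p - 1) / 2) hpN hN
  obtain ⟨z, hz, hzeq⟩ := h
  have hS : S p = ∑ n ∈ Finset.range ((p - 1) / 2 + 1), (205 * (n : ℚ) ^ 2 + 160 * n + 32) *
      (-1) ^ n * (Nat.centralBinom n : ℚ) ^ 5 := by
    unfold S
    simp only [Nat.centralBinom_eq_two_mul_choose]
  unfold CongrModPow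
  rw [hS, hzeq]
  have hp0 : (p : ℚ) ^ 6 ≠ 0 := pow_ne_zero _ (by exact_mod_cast hp.ne_zero)
  rw [mul_div_cancel_left₀ _ hp0]
  rw [Pool.Agent.Helper10.SC.mem_Rp_iff, Ne, ZMod.natCast_eq_zero_iff] at hz
  exact ((Nat.Prime.coprime_iff_not_dvd hp).2 hz).symm

end Pool.Agent.Results.MP_995bae_nt.HalfRange
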